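import Pool.Agent.Y58.HT.NE
import Pool.Agent.Y58.HT.AV
import Pool.Agent.Y58.HT.Asm
import Pool.Agent.Y58.HT.Res
import Pool.Agent.Y909.HT.EQ
import Pool.Agent.Y865.HT.Contr
import Pool.Agent.Y975.HT.Fx3
import Pool.Agent.Y523.HT.AVT
import Pool.Agent.Y662.HT.Ave
import Pool.Agent.Y74.HT.Avk
import Pool.Agent.Y250.HT.Kol
import Pool.Agent.Y396.HT.Red
import Pool.Agent.Y396.HT.NL
import Pool.Agent.Y372.HT.Eig
import Pool.Agent.Y657.HT.Fin
import Pool.Agent.Y348.HT.Nf4
import Pool.Agent.Y659.HT.VS4
import Pool.Agent.Y288.HT.Elem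
import Pool.Agent.Y401.HT.Bctr
import Pool.Agent.Y813.HT.Desc
import Pool.Agent.Y151.HT.Norm
import Pool.Agent.Y153.HT.LN
import Pool.Agent.Y592.HT.UP
import Pool.Agent.Y975.HT.Ft
import Pool.Agent.Y340.HT.RK
import Pool.Agent.Y528.HT.Ker

/-!
Infinite transitivity degree implies high transitivity for subgroups of `GL(2,R)` and `PGL(2,R)`
over commutative rings, and for groups residually embedded in groups `PGL(2,K)`.

Project HT of helper58, second part; parts by helpers 151 (NORM), 153 (LN), 340 (RK), 528 (KER),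
592 (UP), 975 (FT). It uses the dichotomy of the first part (MP_57df8f_al).
-/

universe u

open Matrix H361P Filter Pool.Agent.Y58.HT
open scoped MatrixGroups

namespace Pool.Agent.Y58.HT

/-- Along some ultrafilter on the index set, every nontrivial element lies outside almost all
members of the family of subgroups. -/
def UltraSeparated {G ι : Type u} [Group G] (N : ι → Subgroup G) : Prop :=
  ∃ U : Ultrafilter ι, ∀ g : G, g ≠ 1 → ∀ᶠ i in U, g ∉ N i

/-- `G` embeds in `PGL(2,L)` for some field `L`. -/
def EmbedsInPGL (G : Type u) [Group G] : Prop :=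
  ∃ (L : Type u) (_ : Field L) (φ : G →* PGL(2, L)), Function.Injective φ

/-- There is a family of homomorphisms from `G` to groups `PGL(2, K i)`, with fields `K i`, such
that some term of the derived series of their common kernel is locally nilpotent. -/
def RankOneFamily (G : Type u) [Group G] : Prop :=
  ∃ (ι : Type u) (K : ι → Type u) (_ : ∀ i, Field (K i)) (f : ∀ i, G →* PGL(2, K i)) (n : ℕ),
    LocNilp (derivedSeries ↥(⨅ i, (f i).ker) n)

/-- The transitivity degree is infinite only for highly transitive groups, and for an infinite group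
already degree at least `4` implies high transitivity. -/
def TdGap (G : Type u) [Group G] : Prop :=
  (td G = ⊤ ↔ IsHighlyTransitiveGroup G) ∧ (Infinite G → 4 ≤ td G → IsHighlyTransitiveGroup G)

theorem r_dich : S_DICH.{u} := fun K _ G _ _ =>
  dichotomy (t_av Pool.Agent.Y523.HT.t_avt Pool.Agent.Y662.HT.t_ave Pool.Agent.Y74.HT.t_avk)
    (t_ne Pool.Agent.Y865.HT.t_con Pool.Agent.Y909.HT.t_eq Pool.Agent.Y975.HT.t_fx3)
    (Pool.Agent.Y975.HT.t_lf (Pool.Agent.Y657.HT.t_fin Pool.Agent.Y250.HT.t_kol
      Pool.Agent.Y396.HT.t_red Pool.Agent.Y372.HT.t_eig Pool.Agent.Y396.HT.t_nl))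
    Pool.Agent.Y288.HT.t_elem Pool.Agent.Y401.HT.t_bc Pool.Agent.Y401.HT.t_tr
    Pool.Agent.Y813.HT.t_desc Pool.Agent.Y348.HT.t_nf4 Pool.Agent.Y659.HT.t_vs4 K G

theorem r_gl (R : Type u) [CommRing R] (G : Type u) [Group G] [Countable G]
    (hR : (∃ j : G →* GL (Fin 2) R, Function.Injective j) ∨
      ∃ j : G →* PGL(2, R), Function.Injective j) :
    (td G = ⊤ ↔ IsHighlyTransitiveGroup G) ∧
      (Infinite G → 4 ≤ td G → IsHighlyTransitiveGroup G) := by
  have h4 : Infinite G → 4 ≤ td G → IsHighlyTransitiveGroup G := by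
    intro _ h
    rcases hR with ⟨j, hj⟩ | ⟨j, hj⟩
    · exact main_gl Pool.Agent.Y151.HT.t_norm Pool.Agent.Y153.HT.t_ln Pool.Agent.Y592.HT.t_up r_dich
        Pool.Agent.Y401.HT.t_tr (Pool.Agent.Y528.HT.t_ker Pool.Agent.Y340.HT.t_rk) R G j hj (hasFour_of_td G h)
    · exact main_pgl Pool.Agent.Y151.HT.t_norm Pool.Agent.Y153.HT.t_ln Pool.Agent.Y592.HT.t_up r_dich
        Pool.Agent.Y401.HT.t_tr (Pool.Agent.Y528.HT.t_ker Pool.Agent.Y340.HT.t_rk) R G j hj (hasFour_of_td G h)
  refine ⟨⟨fun h => ?_, fun h => td_eq_top _ h⟩, h4⟩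
  rcases finite_or_infinite G with hfin | hinf
  · exact absurd h (Pool.Agent.Y975.HT.t_ft G)
  · exact h4 hinf (by rw [h]; exact le_top)

end Pool.Agent.Y58.HT

/-- (1) If an infinite group `G` has transitivity degree at least `4` and `N i` are normal subgroups
with trivial intersection, then along some ultrafilter every nontrivial element is outside almost
all `N i`, so `G` embeds in the ultraproduct of the quotients `G / N i`.
(2) Let `G` be a countable infinite group, `K i` fields and `f i : G → PGL(2, K i)` homomorphisms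
such that some term of the derived series of their common kernel is locally nilpotent (for example
`G` residually embedded in groups `PGL(2, K i)`). If `td G ≥ 4`, then `G` is highly transitive, and
embeds in `PGL(2, L)` for one field `L`.
(3), (4) Let `R` be a commutative ring and `G` a countable subgroup of `GL(2,R)` or `PGL(2,R)`. Then
`td G` is infinite if and only if `G` is highly transitive; if `G` is infinite, then already
`td G ≥ 4` implies that `G` is highly transitive. -/
theorem Pool.Agent.Results.MP_405426_al.RankOneOverRings.result :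
    (∀ (G : Type u) [Group G] [Infinite G], 4 ≤ td G →
      ∀ (ι : Type u) (N : ι → Subgroup G), (∀ i, (N i).Normal) → ⨅ i, N i = ⊥ →
        UltraSeparated N) ∧
    (∀ (G : Type u) [Group G] [Countable G] [Infinite G], RankOneFamily G → 4 ≤ td G →
      IsHighlyTransitiveGroup G ∧ EmbedsInPGL G) ∧
    (∀ (R : Type u) [CommRing R] (G : Subgroup (GL (Fin 2) R)) [Countable G], TdGap G) ∧
    (∀ (R : Type u) [CommRing R] (G : Subgroup (PGL(2, R))) [Countable G], TdGap G) := by
  refine ⟨fun G _ _ h ι N hN hbot => exists_ultra Pool.Agent.Y151.HT.t_norm G (hasFour_of_td G h) N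
    hN hbot, ?_, ?_, ?_⟩
  · rintro G _ _ _ ⟨ι, K, _, f, n, hn⟩ h
    exact main_family Pool.Agent.Y151.HT.t_norm Pool.Agent.Y153.HT.t_ln Pool.Agent.Y592.HT.t_up
      r_dich Pool.Agent.Y401.HT.t_tr G ι K f n hn (hasFour_of_td G h)
  · intro R _ G _
    exact r_gl R G (Or.inl ⟨G.subtype, G.subtype_injective⟩)
  · intro R _ G _
    exact r_gl R G (Or.inr ⟨G.subtype, G.subtype_injective⟩)
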